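import Pool.Agent.W497.FS.Fact

set_option autoImplicit false

namespace Pool.Agent.Results.MP_375bfa_co.FewVertices

open Pool.Agent.W497.FS

/-- The Charney-Davis inequality for flag homology `(2 m - 1)`-spheres with at most `5 m + 3`
vertices. -/
theorem result (k : Type) [Field k] (n m : ℕ) (S : Finset (Finset (Fin n)))
    (hS : IsFlagSphere k (2 * m) S) (hN : numVert S ≤ 5 * m + 3) :
    0 ≤ (-1) ^ m * Pool.Agent.W497.FS.omega S :=
  cd_two hS hN

end Pool.Agent.Results.MP_375bfa_co.FewVertices
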