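import Pool.Agent.W497.FS.Nice

set_option autoImplicit false

namespace Pool.Agent.Results.MP_375bfa_co.NiceVertex

open Pool.Agent.W497.FS

/-- The Charney-Davis inequality for the flag homology spheres such that the link of every face `F`
of even size, other than the facets, has a vertex `v` for which every 4-element face of the link
contains `v` or a neighbour of `v`. -/
theorem result (k : Type) [Field k] (n m : ℕ) (S : Finset (Finset (Fin n)))
    (hS : IsFlagSphere k (2 * m) S)
    (hv : ∀ F ∈ S, Even F.card → F.card < 2 * m → ∃ v, v ∉ F ∧ insert v F ∈ S ∧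
      ∀ G ∈ S, G.card = 4 → Disjoint G F → G ∪ F ∈ S → ∃ g ∈ G, ({v, g} : Finset (Fin n)) ∈ S) :
    0 ≤ (-1) ^ m * Pool.Agent.W497.FS.omega S :=
  cd_four hS hv

end Pool.Agent.Results.MP_375bfa_co.NiceVertex
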