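import Pool.Agent.W497.FS.Fact

set_option autoImplicit false

namespace Pool.Agent.Results.MP_375bfa_co.ThreePerRank

open Pool.Agent.W497.FS

/-- The Charney-Davis inequality for the flag homology spheres each of whose join factors `C`, of
dimension `e - 1` say, has at most `3 e` vertices. -/
theorem result (k : Type) [Field k] (n m : ℕ) (S : Finset (Finset (Fin n)))
    (hS : IsFlagSphere k (2 * m) S)
    (hC : ∀ C : Finset (Fin n), IsFactor S C → ∃ F ∈ S, F ⊆ C ∧ C.card ≤ 3 * F.card) :
    0 ≤ (-1) ^ m * Pool.Agent.W497.FS.omega S :=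
  cd_fac_one hS hC

end Pool.Agent.Results.MP_375bfa_co.ThreePerRank
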